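import Pool.Agent.Helper68_Leo4.Okr

/-!
Squad leo4, module GAL: few of the fields are Galois.
-/

set_option autoImplicit false

open NumberField IsDedekindDomain Module

namespace Pool.Agent.Leo4.H89

open Pool.Agent.Leo4

/-- Common divisors. -/
theorem exists_coprime {X Y : O} (hY : Y ≠ 0) : ∃ D X' Y' : O, D ≠ 0 ∧ X = D * X' ∧ Y = D * Y' ∧
    IsCoprime X' Y' := by
  classical
  obtain ⟨D, hD⟩ := IsPrincipalIdealRing.principal (Ideal.span {X, Y})
  have hX : X ∈ Ideal.span {X, Y} := Ideal.subset_span (by simp)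
  have hY' : Y ∈ Ideal.span {X, Y} := Ideal.subset_span (by simp)
  have hDm : D ∈ Ideal.span {X, Y} := by rw [hD]; exact Ideal.mem_span_singleton_self D
  rw [hD] at hX hY'
  obtain ⟨X', hX'⟩ := Ideal.mem_span_singleton.1 hX
  obtain ⟨Y', hY''⟩ := Ideal.mem_span_singleton.1 hY'
  have hD0 : D ≠ 0 := by
    rintro rfl
    rw [zero_mul] at hY''
    exact hY hY''
  obtain ⟨a, b, hab⟩ := Ideal.mem_span_pair.1 hDm
  refine ⟨D, X', Y', hD0, hX', hY'', a, b, ?_⟩
  apply mul_left_cancel₀ hD0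
  rw [mul_one]
  calc D * (a * X' + b * Y') = a * (D * X') + b * (D * Y') := by ring
    _ = a * X + b * Y := by rw [← hX', ← hY'']
    _ = D := hab

/-- `3 m` is not a square in the field of fractions. -/
theorem not_sq {X Y m : O} (hm : ¬ (3 : O) ∣ m) (h : X ^ 2 = 3 * m * Y ^ 2) : Y = 0 := by
  by_contra hY
  obtain ⟨D, X', Y', hD, rfl, rfl, hco⟩ := exists_coprime (X := X) hY
  have h1 : X' ^ 2 = 3 * m * Y' ^ 2 := by
    apply mul_left_cancel₀ (pow_ne_zero 2 hD)
    linear_combination h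
  have h2 : (3 : O) ∣ X' := prime_three.dvd_of_dvd_pow ⟨m * Y' ^ 2, by rw [h1]; ring⟩
  obtain ⟨Z, rfl⟩ := h2
  have h3 : 3 * Z ^ 2 = m * Y' ^ 2 := by
    apply mul_left_cancel₀ prime_three.ne_zero
    linear_combination h1
  have h4 : (3 : O) ∣ m * Y' ^ 2 := ⟨Z ^ 2, h3.symm⟩
  rcases prime_three.dvd_or_dvd h4 with h5 | h5
  · exact hm h5
  · have h6 : (3 : O) ∣ Y' := prime_three.dvd_of_dvd_pow h5
    have h7 : IsUnit (3 : O) := hco.isUnit_of_dvd' ⟨Z, rfl⟩ h6
    exact prime_three.not_isUnit h7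

/-- Squarefree elements which differ by a square. -/
theorem unit_of_sq {X Y m m' : O} (hm : Squarefree m) (hm' : Squarefree m') (hY : Y ≠ 0)
    (h : X ^ 2 * m = Y ^ 2 * m') : ∃ η : O, IsUnit η ∧ m' = η ^ 2 * m := by
  obtain ⟨D, X', Y', hD, rfl, rfl, hco⟩ := exists_coprime (X := X) hY
  have h1 : X' ^ 2 * m = Y' ^ 2 * m' := by
    apply mul_left_cancel₀ (pow_ne_zero 2 hD)
    linear_combination h
  have hco2 : IsCoprime (X' ^ 2) (Y' ^ 2) := hco.pow
  have h2 : Y' ^ 2 ∣ m := hco2.symm.dvd_of_dvd_mul_left ⟨m', h1⟩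
  have h3 : X' ^ 2 ∣ m' := hco2.dvd_of_dvd_mul_left ⟨m, h1.symm⟩
  have hu : IsUnit Y' := hm Y' (by rwa [← sq])
  have hu' : IsUnit X' := hm' X' (by rwa [← sq])
  obtain ⟨y, rfl⟩ := hu
  refine ⟨X' * ((y⁻¹ : Oˣ) : O), hu'.mul (Units.isUnit _), ?_⟩
  have h4 : (y : O) * ((y⁻¹ : Oˣ) : O) = 1 := y.mul_inv
  linear_combination (-((y⁻¹ : Oˣ) : O) ^ 2) * h1 - m' * ((y : O) * ((y⁻¹ : Oˣ) : O) + 1) * h4

theorem star_dvd {a m : O} (h : a ∣ m) : star a ∣ star m := by
  obtain ⟨b, rfl⟩ := h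
  exact ⟨star b, by rw [star_mul, mul_comm]⟩

theorem star_three : star (3 : O) = 3 := by
  ext
  · simp
  · simp

theorem star_not {m : O} (hm : ¬ (3 : O) ∣ m) : ¬ (3 : O) ∣ star m := by
  intro h
  apply hm
  have h1 := star_dvd h
  rwa [star_three, star_star] at h1

theorem star_sqf {m : O} (hm : Squarefree m) : Squarefree (star m) := by
  intro x hx
  have h1 := star_dvd hx
  rw [star_mul, star_star] at h1
  have h2 := hm _ h1
  have h3 : nm (star x) = nm x := nm_star x
  rw [isUnit_iff_nm, h3, ← isUnit_iff_nm] at h2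
  exact h2

theorem ev_star {A : Type} [CommRing A] (f : A) (m : O) : ev (1 - f) m = ev f (star m) := by
  simp only [ev, QuadraticAlgebra.re_star, QuadraticAlgebra.im_star]
  push_cast
  ring

section field

variable {K : Type} [Field K] [NumberField K] {f r : K} {m : O}

/-- Linear independence of `1, r` over `O`. -/
theorem ev_indep (hf : f ^ 2 = f + 1) (hr : r ^ 2 = 3 * ev f m) (hm : ¬ (3 : O) ∣ m) {A B : O}
    (h : ev f A + ev f B * r = 0) : A = 0 ∧ B = 0 := by
  have h1 : ev f (A ^ 2) = ev f (3 * m * B ^ 2) := by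
    rw [ev_pow hf, ev_mul hf, ev_mul hf, ev_pow hf, ev_ofNat]
    linear_combination (ev f A - ev f B * r) * h + (ev f B) ^ 2 * hr
  have h2 := not_sq hm (ev_inj hf h1)
  rw [h2, ev_zero, zero_mul, add_zero] at h
  exact ⟨ev_inj hf (by rw [h, ev_zero]), h2⟩

/-- a common denominator of two rationals. -/
theorem exists_den (p q : ℚ) : ∃ (n : ℤ) (a b : ℤ), n ≠ 0 ∧ (n : ℚ) * p = a ∧ (n : ℚ) * q = b := by
  refine ⟨(p.den : ℤ) * q.den, p.num * q.den, q.num * p.den, ?_, ?_, ?_⟩
  · exact mul_ne_zero (by exact_mod_cast p.den_nz) (by exact_mod_cast q.den_nz)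
  · push_cast
    have := Rat.mul_den_eq_num p
    linear_combination (q.den : ℚ) * this
  · push_cast
    have := Rat.mul_den_eq_num q
    linear_combination (p.den : ℚ) * this

/-- Rational combinations of `1, f` times an integer. -/
theorem exists_O (p q : ℚ) : ∃ (n : ℤ) (A : O), n ≠ 0 ∧ (n : K) * (p + q * f) = ev f A := by
  obtain ⟨n, a, b, hn, ha, hb⟩ := exists_den p q
  refine ⟨n, ⟨a, b⟩, hn, ?_⟩
  have ha' : (n : K) * p = a := by exact_mod_cast congrArg (Rat.cast : ℚ → K) ha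
  have hb' : (n : K) * q = b := by exact_mod_cast congrArg (Rat.cast : ℚ → K) hb
  rw [ev]
  linear_combination ha' + f * hb'

theorem exists_form (hK : finrank ℚ K = 4) (hf : f ^ 2 = f + 1) (hr : r ^ 2 = 3 * ev f m)
    (hm : ¬ (3 : O) ∣ m) (x : K) : ∃ (n : ℤ) (A B : O), n ≠ 0 ∧
      (n : K) * x = ev f A + ev f B * r := by
  have hli : LinearIndependent ℚ ![(1 : K), f, r, f * r] := by
    rw [Fintype.linearIndependent_iff]
    intro q hq
    have hq' : ((q 0 : K) + q 1 * f) + ((q 2 : K) + q 3 * f) * r = 0 := by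
      rw [Fin.sum_univ_four] at hq
      simp only [Rat.smul_def, Matrix.cons_val] at hq
      linear_combination hq
    obtain ⟨n, A, hn, hA⟩ := exists_O (f := f) (q 0) (q 1)
    obtain ⟨k, B, hk, hB⟩ := exists_O (f := f) (q 2) (q 3)
    have hnK : (n : K) ≠ 0 := by exact_mod_cast hn
    have hkK : (k : K) ≠ 0 := by exact_mod_cast hk
    have h1 := ev_indep hf hr hm (A := (k : O) * A) (B := (n : O) * B) (by
      rw [ev_mul hf, ev_mul hf, ev_intCast, ev_intCast, ← hA, ← hB]
      linear_combination (n : K) * (k : K) * hq')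
    have hkO : (k : O) ≠ 0 := by
      intro h
      have h2 : ev f (k : O) = 0 := by rw [h, ev_zero]
      rw [ev_intCast] at h2
      exact hkK h2
    have hnO : (n : O) ≠ 0 := by
      intro h
      have h2 : ev f (n : O) = 0 := by rw [h, ev_zero]
      rw [ev_intCast] at h2
      exact hnK h2
    have hA0 := (mul_eq_zero.1 h1.1).resolve_left hkO
    have hB0 := (mul_eq_zero.1 h1.2).resolve_left hnO
    rw [hA0, ev_zero] at hA
    rw [hB0, ev_zero] at hB
    have e1 := (mul_eq_zero.1 hA).resolve_left hnK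
    have e2 := (mul_eq_zero.1 hB).resolve_left hkK
    have key : ∀ p s : ℚ, (p : K) + s * f = 0 → p = 0 ∧ s = 0 := by
      intro p s hps
      have hs : s = 0 := by
        by_contra hs
        refine ne_rat hf (-p / s) ?_
        have hs' : (s : K) ≠ 0 := by exact_mod_cast hs
        push_cast
        rw [div_eq_iff hs']
        linear_combination -hps
      rw [hs, Rat.cast_zero, zero_mul, add_zero] at hps
      exact ⟨by exact_mod_cast hps, hs⟩
    obtain ⟨g0, g1⟩ := key _ _ e1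
    obtain ⟨g2, g3⟩ := key _ _ e2
    intro i
    fin_cases i
    · exact g0
    · exact g1
    · exact g2
    · exact g3
  have hsp : Submodule.span ℚ (Set.range ![(1 : K), f, r, f * r]) = ⊤ :=
    hli.span_eq_top_of_card_eq_finrank (by rw [Fintype.card_fin, hK])
  have hx : x ∈ Submodule.span ℚ (Set.range ![(1 : K), f, r, f * r]) := by rw [hsp]; trivial
  obtain ⟨q, hq⟩ := (Submodule.mem_span_range_iff_exists_fun ℚ).1 hx
  rw [Fin.sum_univ_four] at hq
  simp only [Rat.smul_def, Matrix.cons_val] at hq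
  obtain ⟨n, A, hn, hA⟩ := exists_O (f := f) (q 0) (q 1)
  obtain ⟨k, B, hk, hB⟩ := exists_O (f := f) (q 2) (q 3)
  refine ⟨n * k, (k : O) * A, (n : O) * B, mul_ne_zero hn hk, ?_⟩
  rw [ev_mul hf, ev_mul hf, ev_intCast, ev_intCast, ← hA, ← hB, ← hq]
  push_cast
  ring

/-- If the field is Galois, `star m` is a unit square times `m`. -/
theorem galois_star [IsGalois ℚ K] (hK : finrank ℚ K = 4) (hf : f ^ 2 = f + 1)
    (hr : r ^ 2 = 3 * ev f m) (hm : ¬ (3 : O) ∣ m) (hsq : Squarefree m) :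
    ∃ η : O, IsUnit η ∧ star m = η ^ 2 * m := by
  obtain ⟨σ, hσ⟩ : ∃ σ : K ≃ₐ[ℚ] K, σ f ≠ f := by
    by_contra hcon
    push Not at hcon
    have h1 := (IsGalois.mem_bot_iff_fixed (F := ℚ) (E := K) f).2 hcon
    rw [IntermediateField.mem_bot] at h1
    obtain ⟨q, hq⟩ := h1
    exact ne_rat hf q (by rw [← hq, eq_ratCast])
  have hσf : σ f = 1 - f := by
    have h1 : (σ f) ^ 2 = σ f + 1 := by
      rw [← map_pow, hf, map_add, map_one]
    have h2 : (σ f - f) * (σ f + f - 1) = 0 := by linear_combination h1 - hf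
    have h3 := (mul_eq_zero.1 h2).resolve_left (sub_ne_zero.2 hσ)
    linear_combination h3
  set ρ := σ r with hρ
  have hρ2 : ρ ^ 2 = 3 * ev f (star m) := by
    rw [hρ, ← map_pow, hr, map_mul, map_ofNat, ← ev_star, ← hσf]
    congr 1
    exact map_ev (σ : K →+* K) f m
  obtain ⟨n, A, B, hn, hAB⟩ := exists_form hK hf hr hm ρ
  have hnK : (n : K) ≠ 0 := by exact_mod_cast hn
  have hnO : (n : O) ≠ 0 := by
    intro h
    have h2 : ev f (n : O) = 0 := by rw [h, ev_zero]
    rw [ev_intCast] at h2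
    exact hnK h2
  have h1 := ev_indep hf hr hm (A := A ^ 2 + 3 * m * B ^ 2 - 3 * (n : O) ^ 2 * star m)
    (B := 2 * A * B) (by
      rw [ev_sub, ev_add, ev_mul hf, ev_mul hf, ev_mul hf, ev_mul hf, ev_mul hf, ev_mul hf,
        ev_pow hf, ev_pow hf, ev_pow hf, ev_intCast, ev_ofNat, ev_ofNat]
      linear_combination (-(n : K) * ρ - ev f A - ev f B * r) * hAB + (n : K) ^ 2 * hρ2
        - (ev f B) ^ 2 * hr)
  have h2 : A * B = 0 := by
    have h3 : (2 : O) * (A * B) = 0 := by rw [← h1.2]; ring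
    exact (mul_eq_zero.1 h3).resolve_left prime_two.ne_zero
  rcases mul_eq_zero.1 h2 with hA | hB
  · have h3 : B ^ 2 * m = (n : O) ^ 2 * star m := by
      apply mul_left_cancel₀ prime_three.ne_zero
      have h4 := h1.1
      rw [hA] at h4
      linear_combination h4
    exact unit_of_sq hsq (star_sqf hsq) hnO h3
  · exfalso
    apply hnO
    apply not_sq (X := A) (star_not hm)
    have h4 := h1.1
    rw [hB] at h4
    linear_combination h4

end field

/-- The two exceptional types of `m`. -/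
theorem star_cases (hU : UniStmt) {m η : O} (hm : Fd m) (hη : IsUnit η)
    (h : star m = η ^ 2 * m) : star m = m ∨ star m = phi ^ 2 * m := by
  obtain ⟨h1, h2, h3, h4⟩ := hm
  have hg : 1 < g := Real.one_lt_goldenRatio
  have hg0 : 0 < g := Real.goldenRatio_pos
  have hst : e2 m = e1 η ^ 2 * e1 m := by
    rw [← e1_star, h, e1_mul, e1_pow]
  obtain ⟨n, hn⟩ := hU η hη
  have hpow : ∀ k l : ℕ, g ^ k < g ^ l → k < l := fun k l hkl =>
    (pow_lt_pow_iff_right₀ hg).1 hkl
  have hcase : η ^ 2 = phi ^ (2 * n) ∨ η ^ 2 * phi ^ (2 * n) = 1 := by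
    rcases hn with hn | hn | hn | hn
    · left
      rw [hn, ← pow_mul, mul_comm]
    · left
      rw [hn, neg_sq, ← pow_mul, mul_comm]
    · right
      rw [mul_comm 2 n, pow_mul, ← mul_pow, hn, one_pow]
    · right
      rw [mul_comm 2 n, pow_mul, ← mul_pow, hn, neg_one_sq]
  rcases hcase with hc | hc
  · -- `e2 m = g^(2n) e1 m`
    have h5 : e2 m = g ^ (2 * n) * e1 m := by
      rw [hst, ← e1_pow, hc, e1_pow, e1_phi]
    have h6 : g ^ (2 * n) ≤ g ^ 2 := by
      rw [h5] at h4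
      exact le_of_mul_le_mul_right h4 h1
    have h7 : 2 * n ≤ 2 := (pow_le_pow_iff_right₀ hg).1 h6
    have h8 : n = 0 ∨ n = 1 := by omega
    rcases h8 with rfl | rfl
    · left
      rw [h, hc, mul_zero, pow_zero, one_mul]
    · right
      rw [h, hc, mul_one]
  · have h5 : e1 m = g ^ (2 * n) * e2 m := by
      have h6 : e1 η ^ 2 * g ^ (2 * n) = 1 := by
        have h7 := congrArg e1 hc
        rwa [e1_mul, e1_pow, e1_pow, e1_phi, e1_one] at h7
      rw [hst]
      linear_combination (-e1 m) * h6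
    have h6 : g ^ (2 * n) < g ^ 2 := by
      rw [h5] at h3
      exact lt_of_mul_lt_mul_right h3 h2.le
    have h7 := hpow _ _ h6
    have h8 : n = 0 := by omega
    left
    rw [h8, mul_zero, pow_zero, mul_one] at hc
    rw [h, hc, one_mul]

/-- GAL. -/
theorem gal (hU : UniStmt) (hF : FldStmt) : GalStmt := by
  refine ⟨6, fun N hN => ?_⟩
  set k : ℤ := ⌊Real.sqrt N⌋ with hk
  have hs : (1 : ℝ) ≤ Real.sqrt N := by
    rw [← Real.sqrt_one]
    exact Real.sqrt_le_sqrt hN
  have hk0 : 1 ≤ k := Int.le_floor.2 (by exact_mod_cast hs)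
  set S : Finset ℤ := Finset.Icc (-k) k with hS
  have hcard : (S.card : ℝ) ≤ 3 * Real.sqrt N := by
    rw [hS, Int.card_Icc]
    have h1 : (((k + 1 - -k).toNat : ℤ) : ℝ) = 2 * (k : ℝ) + 1 := by
      rw [Int.toNat_of_nonneg (by lia)]
      push_cast
      ring
    have h2 : (((k + 1 - -k).toNat : ℕ) : ℝ) = 2 * (k : ℝ) + 1 := by
      rw [← h1]
      norm_cast
    rw [h2]
    have h3 : (k : ℝ) ≤ Real.sqrt N := Int.floor_le _
    linarith
  have hmemS : ∀ a : ℤ, (a : ℝ) ^ 2 ≤ N → a ∈ S := by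
    intro a ha
    rw [hS, Finset.mem_Icc]
    have h1 : |(a : ℝ)| ≤ Real.sqrt N := Real.abs_le_sqrt ha
    rw [abs_le] at h1
    constructor
    · have h2 : (-a : ℤ) ≤ k := Int.le_floor.2 (by push_cast; linarith)
      lia
    · exact Int.le_floor.2 h1.2
  have hsub : {m : O | Fd m ∧ Good m ∧ (nm m : ℝ) ≤ N ∧ IsGalois ℚ (Km m)} ⊆
      ((S.image fun a : ℤ => (⟨a, 0⟩ : O)) ∪ (S.image fun a : ℤ => (⟨-3 * a, a⟩ : O)) :
        Finset O) := by
    rintro m ⟨hFd, hG, hmN, hGal⟩
    obtain ⟨hNF, h4, -, -, -, f, r, hf, hr⟩ := hF m hG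
    have hm3 : ¬ (3 : O) ∣ m := by
      have := hG.cls.three 0
      rwa [zero_pow two_ne_zero, sub_zero] at this
    obtain ⟨η, hη, hst⟩ := galois_star h4 hf hr hm3 hG.sqf
    rw [Finset.coe_union, Finset.coe_image, Finset.coe_image]
    rcases star_cases hU hFd hη hst with h | h
    · left
      have h1 : m.im = 0 := by
        have h2 := congrArg QuadraticAlgebra.im h
        rw [QuadraticAlgebra.im_star] at h2
        lia
      refine ⟨m.re, ?_, ?_⟩
      · apply hmemS
        have h2 : nm m = m.re ^ 2 := by rw [nm, h1]; ring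
        rw [h2] at hmN
        exact_mod_cast hmN
      · ext
        · rfl
        · exact h1.symm
    · right
      have h1 : m.re = -3 * m.im := by
        have h2 := congrArg QuadraticAlgebra.im h
        rw [QuadraticAlgebra.im_star] at h2
        have h3 : (phi ^ 2 * m).im = m.re + 2 * m.im := by
          rw [sq]
          simp only [phi, QuadraticAlgebra.im_mul, QuadraticAlgebra.re_mul]
          ring
        rw [h3] at h2
        lia
      refine ⟨m.im, ?_, ?_⟩
      · apply hmemS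
        have h2 : nm m = 5 * m.im ^ 2 := by rw [nm, h1]; ring
        rw [h2] at hmN
        push_cast at hmN
        nlinarith [sq_nonneg (m.im : ℝ)]
      · ext
        · exact h1.symm
        · rfl
  have h1 := Set.ncard_le_ncard hsub (Finset.finite_toSet _)
  rw [Set.ncard_coe_finset] at h1
  have h2 : ((S.image fun a : ℤ => (⟨a, 0⟩ : O)) ∪
      (S.image fun a : ℤ => (⟨-3 * a, a⟩ : O))).card ≤ S.card + S.card :=
    (Finset.card_union_le _ _).trans (add_le_add Finset.card_image_le Finset.card_image_le)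
  have h3 : ({m : O | Fd m ∧ Good m ∧ (nm m : ℝ) ≤ N ∧ IsGalois ℚ (Km m)}.ncard : ℝ) ≤
      S.card + S.card := by
    exact_mod_cast h1.trans h2
  linarith

end Pool.Agent.Leo4.H89
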